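import Mathlib

/-! An open subset of `(0,1)` closed under two operations is `(0,1)`. -/

namespace Pool.Agent.H53Pos

open Set

theorem pow_intervals {U : Set ℝ} {p q : ℝ} (hp : 0 < p) (hpq : p < q)
    (hI : Ioo p q ⊆ U) (h0 : ∀ b ∈ U, ∀ w ∈ U, b * w ∈ U) :
    ∀ n : ℕ, Ioo (p ^ (n + 1)) (q ^ (n + 1)) ⊆ U := by
  have hq : 0 < q := hp.trans hpq
  intro n
  induction n with
  | zero => simpa using hI
  | succ n ih =>
    rintro x ⟨hx1, hx2⟩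
    have hpn : 0 < p ^ (n + 1) := by positivity
    have hqn : 0 < q ^ (n + 1) := by positivity
    have hx0 : 0 < x := lt_trans (by positivity) hx1
    have e1 : x / q ^ (n + 1) < q := by
      rw [div_lt_iff₀ hqn]; rw [pow_succ] at hx2; linarith
    have e2 : p < x / p ^ (n + 1) := by
      rw [lt_div_iff₀ hpn]; rw [pow_succ] at hx1; linarith
    have e3 : x / q ^ (n + 1) < x / p ^ (n + 1) := by
      apply div_lt_div_of_pos_left hx0 hpn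
      exact pow_lt_pow_left₀ hpq hp.le (by omega)
    obtain ⟨z, hz1, hz2⟩ : ∃ z, max p (x / q ^ (n + 1)) < z ∧ z < min q (x / p ^ (n + 1)) :=
      exists_between (max_lt (lt_min hpq e2) (lt_min e1 e3))
    obtain ⟨z1, z2⟩ := max_lt_iff.1 hz1
    obtain ⟨z3, z4⟩ := lt_min_iff.1 hz2
    have hz0 : 0 < z := hp.trans z1
    have hy : x / z ∈ Ioo (p ^ (n + 1)) (q ^ (n + 1)) := by
      constructor
      · rw [lt_div_iff₀ hz0]; rw [lt_div_iff₀ hpn] at z4; linarith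
      · rw [div_lt_iff₀ hz0]; rw [div_lt_iff₀ hqn] at z2; linarith
    have := h0 _ (ih hy) z (hI ⟨z1, z3⟩)
    rwa [div_mul_cancel₀ _ hz0.ne'] at this

theorem near_zero {U : Set ℝ} (hU : IsOpen U) (hsub : U ⊆ Ioo 0 1) (hne : U.Nonempty)
    (h0 : ∀ b ∈ U, ∀ w ∈ U, b * w ∈ U) : ∃ δ : ℝ, 0 < δ ∧ δ ≤ 1 ∧ Ioo 0 δ ⊆ U := by
  obtain ⟨u, hu⟩ := hne
  obtain ⟨r, hr, hball⟩ := Metric.isOpen_iff.1 hU u hu
  have hu01 := hsub hu
  -- an interval
  obtain ⟨p, q, hp, hpq, hI⟩ : ∃ p q : ℝ, 0 < p ∧ p < q ∧ Ioo p q ⊆ U := by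
    refine ⟨max (u / 2) (u - r), u + r, lt_max_of_lt_left (by linarith [hu01.1]), ?_, ?_⟩
    · exact max_lt (by linarith [hu01.1]) (by linarith)
    · rintro x ⟨h1, h2⟩
      refine hball ?_
      rw [Metric.mem_ball, Real.dist_eq, abs_lt]
      have := (max_lt_iff.1 h1).2
      constructor <;> linarith
  have hp1 : p < 1 := by
    have := hsub (hI ⟨by linarith, by linarith⟩ : (p + q) / 2 ∈ U)
    linarith [this.2]
  have hq : 0 < q := hp.trans hpq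
  have hpow := pow_intervals hp hpq hI h0
  -- (q / p) ^ n * q > 1 for large n
  obtain ⟨N, hN⟩ : ∃ N : ℕ, 1 / q < (q / p) ^ N :=
    pow_unbounded_of_one_lt _ (by rw [one_lt_div hp]; exact hpq)
  refine ⟨p ^ (N + 1), by positivity, pow_le_one₀ hp.le hp1.le, ?_⟩
  rintro x ⟨hx0, hx1⟩
  have hex : ∃ n : ℕ, p ^ (n + 1) < x := by
    obtain ⟨n, hn⟩ := exists_pow_lt_of_lt_one hx0 hp1
    exact ⟨n, lt_of_le_of_lt (pow_le_pow_of_le_one hp.le hp1.le (by omega)) hn⟩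
  classical
  set n := Nat.find hex with hn
  have hn1 : p ^ (n + 1) < x := Nat.find_spec hex
  have hnN : N < n := by
    by_contra hcon
    push Not at hcon
    have : p ^ (N + 1) ≤ p ^ (n + 1) := pow_le_pow_of_le_one hp.le hp1.le (by omega)
    linarith
  obtain ⟨k, hk⟩ : ∃ k, n = k + 1 := ⟨n - 1, by omega⟩
  have hn2 : x ≤ p ^ n := by
    have := Nat.find_min hex (m := k) (by omega)
    rw [not_lt] at this
    rw [hk]; exact this
  refine hpow n ⟨hn1, lt_of_le_of_lt hn2 ?_⟩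
  have h1 : (q / p) ^ N ≤ (q / p) ^ n :=
    pow_le_pow_right₀ (by rw [one_le_div hp]; exact hpq.le) hnN.le
  have h2 : 1 / q < (q / p) ^ n := hN.trans_le h1
  rw [div_pow, div_lt_div_iff₀ hq (by positivity), one_mul] at h2
  rw [pow_succ]
  exact h2

theorem extend {U : Set ℝ} {m : ℝ} (hm0 : 0 < m) (hm1 : m < 1) (hI : Ioo 0 m ⊆ U)
    (h1 : ∀ a ∈ U, ∀ b ∈ U, ∀ w ∈ U, a + (1 - a) * b * w ∈ U) :
    Ioo 0 (m + (1 - m) * m ^ 2) ⊆ U := by
  rintro x ⟨hx0, hx1⟩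
  rcases lt_or_ge x m with h | h
  · exact hI ⟨hx0, h⟩
  have hm2 : 0 < 1 - m ^ 2 := by nlinarith
  have e1 : (x - m ^ 2) / (1 - m ^ 2) < m := by
    rw [div_lt_iff₀ hm2]; nlinarith
  obtain ⟨a, ha1, ha2⟩ := exists_between (max_lt hm0 e1)
  obtain ⟨a0, a1⟩ := max_lt_iff.1 ha1
  have ha3 : 0 < 1 - a := by linarith
  rw [div_lt_iff₀ hm2] at a1
  set t := (x - a) / (1 - a) with ht
  have ht0 : 0 < t := div_pos (by linarith) ha3
  have ht1 : t < m ^ 2 := by rw [ht, div_lt_iff₀ ha3]; nlinarith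
  have hs0 : 0 < Real.sqrt t := Real.sqrt_pos.2 ht0
  have hs1 : Real.sqrt t < m := by rw [Real.sqrt_lt' hm0]; exact ht1
  have := h1 a (hI ⟨a0, ha2⟩) _ (hI ⟨hs0, hs1⟩) _ (hI ⟨hs0, hs1⟩)
  have e2 : a + (1 - a) * Real.sqrt t * Real.sqrt t = x := by
    rw [mul_assoc, Real.mul_self_sqrt ht0.le, ht, mul_div_cancel₀ _ ha3.ne']; ring
  rwa [e2] at this

theorem fill {U : Set ℝ} (hU : IsOpen U) (hsub : U ⊆ Ioo 0 1) (hne : U.Nonempty)
    (h0 : ∀ b ∈ U, ∀ w ∈ U, b * w ∈ U)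
    (h1 : ∀ a ∈ U, ∀ b ∈ U, ∀ w ∈ U, a + (1 - a) * b * w ∈ U) : U = Ioo 0 1 := by
  obtain ⟨δ, hδ0, hδ1, hδ⟩ := near_zero hU hsub hne h0
  set S : Set ℝ := {m | m ≤ 1 ∧ Ioo 0 m ⊆ U} with hS
  have hbdd : BddAbove S := ⟨1, fun m hm => hm.1⟩
  have hSne : S.Nonempty := ⟨δ, hδ1, hδ⟩
  set s := sSup S with hs
  have hs0 : 0 < s := hδ0.trans_le (le_csSup hbdd ⟨hδ1, hδ⟩)
  have hs1 : s ≤ 1 := csSup_le hSne fun m hm => hm.1
  have hsU : Ioo 0 s ⊆ U := by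
    rintro x ⟨hx0, hx1⟩
    obtain ⟨m, hm, hxm⟩ := exists_lt_of_lt_csSup hSne hx1
    exact hm.2 ⟨hx0, hxm⟩
  rcases hs1.eq_or_lt with h | h
  · rw [h] at hsU
    exact hsub.antisymm hsU
  · exfalso
    have h2 := extend hs0 h hsU h1
    have h3 : s + (1 - s) * s ^ 2 ≤ s := le_csSup hbdd ⟨by
      have h4 : s ^ 2 ≤ 1 := pow_le_one₀ hs0.le hs1
      have h5 : (1 - s) * s ^ 2 ≤ (1 - s) * 1 := mul_le_mul_of_nonneg_left h4 (by linarith)
      linarith, h2⟩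
    have : 0 < (1 - s) * s ^ 2 := by
      have : 0 < 1 - s := by linarith
      positivity
    linarith

end Pool.Agent.H53Pos
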