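import Pool.Agent.H53Pos.Fill

/-! Positivity of the density. -/

namespace Pool.Agent.H53Pos

open MeasureTheory Set Filter Topology
open scoped ENNReal

/-- The right-hand side of the recursive distributional equation. -/
def Phi (q : ℝ × ℝ × ℝ × ℝ) : ℝ := q.1 * (q.2.1 + (1 - q.2.1) * q.2.2.1 * q.2.2.2)

theorem measurable_Phi : Measurable Phi := by unfold Phi; fun_prop

theorem lower {ν : Measure ℝ} [SFinite ν] {c0 c1 : ℝ≥0∞}
    (hsol : ν = ((c0 • Measure.dirac (0 : ℝ) + c1 • Measure.dirac (1 : ℝ)).prod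
      (ν.prod (ν.prod ν))).map Phi) {I : Set ℝ} (hI : MeasurableSet I) :
    c1 * (ν.prod (ν.prod ν)) {q : ℝ × ℝ × ℝ | q.1 + (1 - q.1) * q.2.1 * q.2.2 ∈ I} ≤ ν I := by
  have hS : MeasurableSet (Phi ⁻¹' I) := measurable_Phi hI
  conv_rhs => rw [hsol]
  rw [Measure.map_apply measurable_Phi hI, Measure.prod_apply hS, lintegral_add_measure,
    lintegral_smul_measure, lintegral_smul_measure, lintegral_dirac, lintegral_dirac]
  refine le_add_left ?_
  rw [smul_eq_mul]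
  refine mul_le_mul' le_rfl (measure_mono ?_)
  intro q hq
  show Phi (1, q) ∈ I
  unfold Phi
  simpa using hq

theorem triple {ν : Measure ℝ} [SFinite ν] {A B : Set ℝ} (hA : MeasurableSet A)
    (hB : MeasurableSet B) {S : Set (ℝ × ℝ × ℝ)} (hS : MeasurableSet S) {K : ℝ≥0∞}
    (h : ∀ a ∈ A, ∀ b ∈ B, K ≤ ν {c | (a, b, c) ∈ S}) :
    ν A * (ν B * K) ≤ (ν.prod (ν.prod ν)) S := by
  rw [Measure.prod_apply hS]
  have h1 : ∀ a ∈ A, ν B * K ≤ (ν.prod ν) (Prod.mk a ⁻¹' S) := by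
    intro a ha
    rw [Measure.prod_apply (measurable_prodMk_left hS)]
    calc ν B * K = ∫⁻ _ in B, K ∂ν := by rw [setLIntegral_const, mul_comm]
      _ ≤ ∫⁻ b in B, ν (Prod.mk b ⁻¹' (Prod.mk a ⁻¹' S)) ∂ν :=
          setLIntegral_mono' hB fun b hb => h a ha b hb
      _ ≤ _ := setLIntegral_le_lintegral _ _
  calc ν A * (ν B * K) = ∫⁻ _ in A, (ν B * K) ∂ν := by rw [setLIntegral_const, mul_comm]
    _ ≤ ∫⁻ a in A, (ν.prod ν) (Prod.mk a ⁻¹' S) ∂ν := setLIntegral_mono' hA fun a ha => h1 a ha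
    _ ≤ _ := setLIntegral_le_lintegral _ _

section main

variable {ν : Measure ℝ} [IsProbabilityMeasure ν] {c0 c1 : ℝ≥0∞} {f : ℝ → ℝ}

theorem nuI (hrep : ν = ν {0} • Measure.dirac (0 : ℝ) +
      (volume.restrict (Icc 0 1)).withDensity (fun x => ENNReal.ofReal (f x)))
    {J : Set ℝ} (hJ : MeasurableSet J) (hsub : J ⊆ Ioo 0 1) :
    ν J = ∫⁻ y in J, ENNReal.ofReal (f y) := by
  conv_lhs => rw [hrep]
  rw [Measure.add_apply, Measure.smul_apply, Measure.dirac_apply' _ hJ, withDensity_apply _ hJ,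
    Measure.restrict_restrict hJ, indicator_of_notMem (fun h => lt_irrefl _ (hsub h).1),
    smul_zero, zero_add, inter_eq_left.2 (hsub.trans Ioo_subset_Icc_self)]

/-- Positivity propagates along the equation. -/
theorem propagate (hc1 : c1 ≠ 0) (hc1' : c1 ≠ ⊤)
    (hsol : ν = ((c0 • Measure.dirac (0 : ℝ) + c1 • Measure.dirac (1 : ℝ)).prod
      (ν.prod (ν.prod ν))).map Phi)
    (hrep : ν = ν {0} • Measure.dirac (0 : ℝ) +
      (volume.restrict (Icc 0 1)).withDensity (fun x => ENNReal.ofReal (f x)))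
    (hf0 : ∀ x, 0 ≤ f x) (hfc : ContinuousOn f (Ioo 0 1)) (h00 : 0 < ν {0})
    {x a b w : ℝ} (hx : x ∈ Ioo (0 : ℝ) 1) (ha : a = 0 ∨ (a ∈ Ioo (0 : ℝ) 1 ∧ 0 < f a))
    (hb : b ∈ Ioo (0 : ℝ) 1 ∧ 0 < f b) (hw : w ∈ Ioo (0 : ℝ) 1 ∧ 0 < f w)
    (he : x = a + (1 - a) * b * w) : 0 < f x := by
  by_contra hcon
  have hfx : f x = 0 := le_antisymm (not_lt.1 hcon) (hf0 x)
  have ha1 : a < 1 := by rcases ha with h | h; · rw [h]; exact one_pos
                         · exact h.1.2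
  have hfa : ∀ y ∈ Ioo (0 : ℝ) 1, ContinuousAt f y := fun y hy =>
    hfc.continuousAt (Ioo_mem_nhds hy.1 hy.2)
  -- the lower bound near `w`
  obtain ⟨r, hr0, hr⟩ : ∃ r > 0, ∀ c, |c - w| < r → c ∈ Ioo (0 : ℝ) 1 ∧ f w / 2 < f c := by
    have h1 : ∀ᶠ c in 𝓝 w, f w / 2 < f c :=
      (hfa w hw.1).eventually (lt_mem_nhds (by linarith [hw.2]))
    have h2 : ∀ᶠ c in 𝓝 w, c ∈ Ioo (0 : ℝ) 1 := Ioo_mem_nhds hw.1.1 hw.1.2
    obtain ⟨r, hr, h⟩ := Metric.eventually_nhds_iff.1 (h2.and h1)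
    exact ⟨r, hr, fun c hc => h (by rw [Real.dist_eq]; exact hc)⟩
  -- the neighbourhoods of `a` and `b`
  obtain ⟨δ, hδ0, hδ⟩ : ∃ δ > 0, ∀ a' b' : ℝ, |a' - a| < δ → |b' - b| < δ →
      a' < 1 ∧ |(x - a') / ((1 - a') * b') - w| < r / 2 := by
    have hne : (1 - a) * b ≠ 0 := mul_ne_zero (by linarith) hb.1.1.ne'
    have hcont : ContinuousAt (fun p : ℝ × ℝ => (x - p.1) / ((1 - p.1) * p.2)) (a, b) := by
      refine ContinuousAt.div (by fun_prop) (by fun_prop) hne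
    have hval : (x - a) / ((1 - a) * b) = w := by
      rw [div_eq_iff hne, he]; ring
    have h1 : ∀ᶠ p : ℝ × ℝ in 𝓝 (a, b), |(x - p.1) / ((1 - p.1) * p.2) - w| < r / 2 := by
      have := hcont.eventually (Metric.ball_mem_nhds _ (half_pos hr0))
      simp only [hval] at this
      filter_upwards [this] with p hp
      rwa [Real.dist_eq] at hp
    have h2 : ∀ᶠ p : ℝ × ℝ in 𝓝 (a, b), p.1 < 1 :=
      continuousAt_fst.eventually (gt_mem_nhds ha1)
    obtain ⟨δ, hδ, h⟩ := Metric.eventually_nhds_iff.1 (h2.and h1)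
    refine ⟨δ, hδ, fun a' b' h1 h2 => ?_⟩
    have := @h (a', b') (by
      rw [Prod.dist_eq, max_lt_iff, Real.dist_eq, Real.dist_eq]; exact ⟨h1, h2⟩)
    exact this
  set A : Set ℝ := Icc 0 1 ∩ Ioo (a - δ) (a + δ) with hAdef
  set B : Set ℝ := Ioo 0 1 ∩ Ioo (b - δ) (b + δ) with hBdef
  have hAm : MeasurableSet A := measurableSet_Icc.inter measurableSet_Ioo
  have hBm : MeasurableSet B := measurableSet_Ioo.inter measurableSet_Ioo
  -- open neighbourhoods of points of positivity are charged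
  have charge : ∀ y ∈ Ioo (0 : ℝ) 1, 0 < f y → ∀ V ∈ 𝓝 y, 0 < ν V := by
    intro y hy hfy V hV
    have h1 : ∀ᶠ c in 𝓝 y, f y / 2 < f c := (hfa y hy).eventually (lt_mem_nhds (by linarith))
    have h2 : ∀ᶠ c in 𝓝 y, c ∈ Ioo (0 : ℝ) 1 := Ioo_mem_nhds hy.1 hy.2
    obtain ⟨e, he0, h⟩ := Metric.eventually_nhds_iff.1 (h2.and (h1.and hV))
    have hsub : Metric.ball y e ⊆ V := fun c hc => (h hc).2.2
    refine lt_of_lt_of_le ?_ (measure_mono hsub)
    rw [nuI hrep measurableSet_ball fun c hc => (h hc).1]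
    have h3 : ENNReal.ofReal (f y / 2) * volume (Metric.ball y e) ≤
        ∫⁻ c in Metric.ball y e, ENNReal.ofReal (f c) := by
      rw [← setLIntegral_const]
      exact setLIntegral_mono' measurableSet_ball fun c hc =>
        ENNReal.ofReal_le_ofReal (h hc).2.1.le
    refine lt_of_lt_of_le ?_ h3
    refine ENNReal.mul_pos ?_ ?_
    · simpa using hfy
    · exact (Metric.measure_ball_pos volume y he0).ne'
  have hA : 0 < ν A := by
    rcases ha with h | h
    · refine lt_of_lt_of_le h00 (measure_mono ?_)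
      rw [singleton_subset_iff]
      refine ⟨⟨le_rfl, zero_le_one⟩, ?_, ?_⟩ <;> rw [h] <;> linarith
    · exact charge a h.1 h.2 _ (inter_mem (Icc_mem_nhds h.1.1 h.1.2)
        (Ioo_mem_nhds (by linarith) (by linarith)))
  have hB : 0 < ν B := charge b hb.1 hb.2 _ (inter_mem (Ioo_mem_nhds hb.1.1 hb.1.2)
    (Ioo_mem_nhds (by linarith) (by linarith)))
  set κ : ℝ≥0∞ := c1 * (ν A * (ν B * ENNReal.ofReal (f w / 2))) with hκ
  have hκ0 : κ ≠ 0 := by
    rw [hκ]
    refine mul_ne_zero hc1 (mul_ne_zero hA.ne' (mul_ne_zero hB.ne' ?_))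
    have := hw.2
    simpa using this
  have hκt : κ ≠ ⊤ := by
    rw [hκ]
    exact ENNReal.mul_ne_top hc1' (ENNReal.mul_ne_top (measure_ne_top _ _)
      (ENNReal.mul_ne_top (measure_ne_top _ _) ENNReal.ofReal_ne_top))
  have hε : 0 < κ.toReal / 2 := half_pos (ENNReal.toReal_pos hκ0 hκt)
  -- near `x` the density is small
  obtain ⟨s, hs0, hs⟩ : ∃ s > 0, ∀ y, |y - x| < s → y ∈ Ioo (0 : ℝ) 1 ∧ f y < κ.toReal / 2 := by
    have h1 : ∀ᶠ c in 𝓝 x, f c < κ.toReal / 2 :=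
      (hfa x hx).eventually (gt_mem_nhds (by rw [hfx]; exact hε))
    have h2 : ∀ᶠ c in 𝓝 x, c ∈ Ioo (0 : ℝ) 1 := Ioo_mem_nhds hx.1 hx.2
    obtain ⟨s, hs, h⟩ := Metric.eventually_nhds_iff.1 (h2.and h1)
    exact ⟨s, hs, fun c hc => h (by rw [Real.dist_eq]; exact hc)⟩
  set h : ℝ := min s (r / 2) with hh
  have hh0 : 0 < h := lt_min hs0 (by linarith)
  have hhs : h ≤ s := min_le_left _ _
  have hhr : h ≤ r / 2 := min_le_right _ _
  set I : Set ℝ := Metric.ball x h with hI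
  have hup : ν I ≤ ENNReal.ofReal (κ.toReal / 2) * ENNReal.ofReal (2 * h) := by
    have hIc : ∀ c ∈ Metric.ball x h, |c - x| < s := by
      intro c hc
      rw [Metric.mem_ball, Real.dist_eq] at hc
      linarith
    rw [nuI hrep measurableSet_ball fun c hc => (hs c (hIc c hc)).1]
    calc ∫⁻ y in I, ENNReal.ofReal (f y) ≤ ∫⁻ _ in I, ENNReal.ofReal (κ.toReal / 2) :=
          setLIntegral_mono' measurableSet_ball fun c hc =>
            ENNReal.ofReal_le_ofReal (hs c (hIc c hc)).2.le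
      _ = _ := by rw [setLIntegral_const, hI, Real.volume_ball]
  have hSm : MeasurableSet {q : ℝ × ℝ × ℝ | q.1 + (1 - q.1) * q.2.1 * q.2.2 ∈ I} := by
    have : Measurable fun q : ℝ × ℝ × ℝ => q.1 + (1 - q.1) * q.2.1 * q.2.2 := by fun_prop
    exact this measurableSet_ball
  have hlow : κ * ENNReal.ofReal (2 * h) ≤ ν I := by
    refine le_trans ?_ (lower hsol (I := I) measurableSet_ball)
    rw [hκ, mul_assoc]
    refine mul_le_mul' le_rfl ?_
    rw [mul_assoc, mul_assoc]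
    refine triple hAm hBm hSm ?_
    rintro a' ⟨⟨ha0', ha1'⟩, ha2, ha3⟩ b' ⟨⟨hb0', hb1'⟩, hb2, hb3⟩
    obtain ⟨q1, q2⟩ := hδ a' b' (by rw [abs_lt]; constructor <;> linarith)
      (by rw [abs_lt]; constructor <;> linarith)
    set cs := (x - a') / ((1 - a') * b') with hcs
    have hpos : 0 < (1 - a') * b' := mul_pos (by linarith) hb0'
    have hle : (1 - a') * b' ≤ 1 := by nlinarith
    have hball : Metric.ball cs h ⊆ {c | (a', b', c) ∈ {q : ℝ × ℝ × ℝ |
        q.1 + (1 - q.1) * q.2.1 * q.2.2 ∈ I}} := by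
      intro c hc
      rw [Metric.mem_ball, Real.dist_eq] at hc
      show a' + (1 - a') * b' * c ∈ I
      rw [hI, Metric.mem_ball, Real.dist_eq]
      have e1 : a' + (1 - a') * b' * c - x = ((1 - a') * b') * (c - cs) := by
        rw [mul_sub, hcs, mul_div_cancel₀ _ hpos.ne']; ring
      rw [e1, abs_mul, abs_of_pos hpos]
      calc (1 - a') * b' * |c - cs| ≤ 1 * |c - cs| :=
            mul_le_mul_of_nonneg_right hle (abs_nonneg _)
        _ < h := by rw [one_mul]; exact hc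
    refine le_trans ?_ (measure_mono hball)
    have hin : ∀ c ∈ Metric.ball cs h, c ∈ Ioo (0 : ℝ) 1 ∧ f w / 2 < f c := by
      intro c hc
      rw [Metric.mem_ball, Real.dist_eq] at hc
      refine hr c ?_
      have : |c - w| ≤ |c - cs| + |cs - w| := abs_sub_le _ _ _
      linarith
    rw [nuI hrep measurableSet_ball fun c hc => (hin c hc).1]
    calc ENNReal.ofReal (f w / 2) * ENNReal.ofReal (2 * h)
        = ∫⁻ _ in Metric.ball cs h, ENNReal.ofReal (f w / 2) := by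
          rw [setLIntegral_const, Real.volume_ball]
      _ ≤ _ := setLIntegral_mono' measurableSet_ball fun c hc =>
          ENNReal.ofReal_le_ofReal (hin c hc).2.le
  have hfin := hlow.trans hup
  have h2h0 : ENNReal.ofReal (2 * h) ≠ 0 := by
    have : 0 < 2 * h := by linarith
    simpa using this
  have := (ENNReal.mul_le_mul_iff_left h2h0 ENNReal.ofReal_ne_top).1 hfin
  have h5 : κ.toReal ≤ κ.toReal / 2 := by
    have := ENNReal.toReal_mono ENNReal.ofReal_ne_top this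
    rwa [ENNReal.toReal_ofReal hε.le] at this
  linarith

theorem pos (hc1 : c1 ≠ 0) (hc1' : c1 ≠ ⊤)
    (hsol : ν = ((c0 • Measure.dirac (0 : ℝ) + c1 • Measure.dirac (1 : ℝ)).prod
      (ν.prod (ν.prod ν))).map Phi)
    (hrep : ν = ν {0} • Measure.dirac (0 : ℝ) +
      (volume.restrict (Icc 0 1)).withDensity (fun x => ENNReal.ofReal (f x)))
    (hf0 : ∀ x, 0 ≤ f x) (hfc : ContinuousOn f (Ioo 0 1)) (h00 : 0 < ν {0})
    (hnt : 0 < ν (Ioo 0 1)) : ∀ x ∈ Ioo (0 : ℝ) 1, 0 < f x := by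
  set U : Set ℝ := {x | x ∈ Ioo (0 : ℝ) 1 ∧ 0 < f x} with hU
  have hopen : IsOpen U := by
    have := hfc.isOpen_inter_preimage isOpen_Ioo (isOpen_Ioi (a := (0 : ℝ)))
    exact this
  have hne : U.Nonempty := by
    by_contra hcon
    rw [not_nonempty_iff_eq_empty] at hcon
    have : ν (Ioo 0 1) = 0 := by
      rw [nuI hrep measurableSet_Ioo le_rfl]
      have h1 : ∀ y ∈ Ioo (0 : ℝ) 1, ENNReal.ofReal (f y) = 0 := by
        intro y hy
        have h2 : ¬ 0 < f y := fun h => by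
          have h3 : y ∈ U := ⟨hy, h⟩
          rw [hcon] at h3; exact h3
        rw [ENNReal.ofReal_eq_zero]; exact not_lt.1 h2
      rw [setLIntegral_congr_fun measurableSet_Ioo h1]
      simp
    exact hnt.ne' this
  have hfill := fill hopen (fun x hx => hx.1) hne
    (fun b hb w hw => ⟨⟨mul_pos hb.1.1 hw.1.1, by nlinarith [hb.1.1, hb.1.2, hw.1.1, hw.1.2]⟩,
      propagate hc1 hc1' hsol hrep hf0 hfc h00
        ⟨mul_pos hb.1.1 hw.1.1, by nlinarith [hb.1.1, hb.1.2, hw.1.1, hw.1.2]⟩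
        (Or.inl rfl) hb hw (by ring)⟩)
    (fun a ha b hb w hw => by
      have h1 : 0 < b * w := mul_pos hb.1.1 hw.1.1
      have h2 : b * w < 1 := by nlinarith [hb.1.1, hb.1.2, hw.1.1, hw.1.2]
      have hin : a + (1 - a) * b * w ∈ Ioo (0 : ℝ) 1 := by
        have h3 : 0 < 1 - a := by linarith [ha.1.2]
        have h4 : (1 - a) * (b * w) < (1 - a) * 1 := mul_lt_mul_of_pos_left h2 h3
        have h5 : 0 < (1 - a) * (b * w) := mul_pos h3 h1
        have h6 : (1 - a) * b * w = (1 - a) * (b * w) := mul_assoc _ _ _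
        rw [h6]
        exact ⟨by linarith [ha.1.1], by linarith⟩
      exact ⟨hin, propagate hc1 hc1' hsol hrep hf0 hfc h00 hin (Or.inr ha) hb hw rfl⟩)
  intro x hx
  rw [← hfill] at hx
  exact hx.2

end main

end Pool.Agent.H53Pos
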